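import Mathlib

open MvPolynomial

namespace Pool.Agent.Results.MP_f4858a_ag.Disproof

/-- The bigraded coordinate ring `ℂ[x₀,x₁,x₂,x₃; y₀,y₁]` of `Y = ℙ³ × ℙ¹`:
`X (Sum.inl i)` is `xᵢ` and `X (Sum.inr j)` is `yⱼ`. -/
abbrev CoordRing : Type := MvPolynomial (Fin 4 ⊕ Fin 2) ℂ

/-- The bidegrees of the variables: `xᵢ` has bidegree `(1,0)` and `yⱼ` has bidegree `(0,1)`. -/
def bideg : Fin 4 ⊕ Fin 2 → ℕ × ℕ := Sum.elim (fun _ => (1, 0)) (fun _ => (0, 1))

/-- The space `H⁰(Y, O(i,j))` of bihomogeneous polynomials of bidegree `(i,j)`. -/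
noncomputable abbrev forms (i j : ℕ) : Submodule ℂ CoordRing :=
  weightedHomogeneousSubmodule ℂ bideg (i, j)

/-- The bigraded Hilbert function of `CoordRing ⧸ P`: the dimension of the image of
`forms i j` in the quotient. -/
noncomputable def hilbert (P : Ideal CoordRing) (i j : ℕ) : ℕ :=
  Module.finrank ℂ ((forms i j).map (Ideal.Quotient.mkₐ ℂ P).toLinearMap)

/-- `P` is the bihomogeneous prime ideal of an irreducible curve `C ⊂ Y` with
`H · C = a` and `F · C = b`, where `H = O(1,0)` and `F = O(0,1)`: the Hilbert polynomial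
`χ(O_C(i,j))` is `a i + b j + c`, and it is not constant. -/
structure IsCurve (P : Ideal CoordRing) (a b : ℕ) : Prop where
  prime : P.IsPrime
  bihomogeneous : ∀ f ∈ P, ∀ m, weightedHomogeneousComponent bideg m f ∈ P
  nonconstant : (a, b) ≠ (0, 0)
  hilbert_eq : ∃ (c : ℤ) (N : ℕ), ∀ i ≥ N, ∀ j ≥ N, (hilbert P i j : ℤ) = a * i + b * j + c

/-- The classes in `N₁(Y) = ℝ²` (coordinates `(H · C, F · C)`, as `Pic Y` is spanned by `H`
and `F`) of the irreducible curves `C ⊂ Y` on which `f` vanishes, that is, which lie on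
`X = {f = 0}`. For `f = 0` these are all irreducible curves on `Y`. -/
def curveClasses (f : CoordRing) : Set (ℝ × ℝ) :=
  {v | ∃ (P : Ideal CoordRing) (a b : ℕ), IsCurve P a b ∧ f ∈ P ∧ v = ((a : ℝ), (b : ℝ))}

/-- The closure in `N₁(Y)` of the convex cone spanned by the classes of the irreducible curves
on `{f = 0}`. For `f = 0` this is `Eff₁(Y)`; for `X = {f = 0}` it contains `i_* Eff₁(X)`. -/
noncomputable def effCone (f : CoordRing) : Set (ℝ × ℝ) :=
  closure (PointedCone.hull ℝ (curveClasses f) : Set (ℝ × ℝ))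

/-- The exponents of the monomials of bidegree `(d,d)`; a polynomial in these indeterminates is
a polynomial in the coefficients of a form of bidegree `(d,d)`, a section of `O(dA)`,
`A = O(1,1)`. -/
abbrev Expo (d : ℕ) : Type :=
  {s : (Fin 4 ⊕ Fin 2) →₀ ℕ // Finsupp.weight bideg s = (d, d)}

/-! ### weights -/

lemma weight_eq (s : (Fin 4 ⊕ Fin 2) →₀ ℕ) :
    Finsupp.weight bideg s = (∑ i, s (Sum.inl i), ∑ j, s (Sum.inr j)) := by
  rw [Finsupp.weight_apply, Finsupp.sum_fintype _ _ (fun i => by simp),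
    Fintype.sum_sum_type]
  ext
  · simp [bideg, Prod.fst_sum]
  · simp [bideg, Prod.snd_sum]

lemma mem_forms {i j : ℕ} {f : CoordRing} :
    f ∈ forms i j ↔ ∀ s, coeff s f ≠ 0 → (∑ k, s (Sum.inl k) = i ∧ ∑ k, s (Sum.inr k) = j) := by
  rw [mem_weightedHomogeneousSubmodule, IsWeightedHomogeneous]
  simp only [weight_eq, Prod.mk.injEq]

lemma finite_forms (i j : ℕ) : FiniteDimensional ℂ (forms i j) := by
  have h : forms i j ≤ restrictTotalDegree (Fin 4 ⊕ Fin 2) ℂ (i + j) := by
    intro f hf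
    rw [mem_restrictTotalDegree, totalDegree]
    refine Finset.sup_le fun s hs => ?_
    have := mem_forms.mp hf s (mem_support_iff.mp hs)
    rw [Finsupp.sum_fintype _ _ (fun _ => rfl), Fintype.sum_sum_type]
    omega
  exact Submodule.finiteDimensional_of_le h

lemma monomial_mem_forms {i j : ℕ} {s : (Fin 4 ⊕ Fin 2) →₀ ℕ} (c : ℂ)
    (h1 : ∑ k, s (Sum.inl k) = i) (h2 : ∑ k, s (Sum.inr k) = j) :
    (monomial s c : CoordRing) ∈ forms i j := by
  rw [mem_forms]
  intro t ht
  rw [coeff_monomial] at ht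
  split_ifs at ht with h
  · subst h
    exact ⟨h1, h2⟩
  · exact absurd rfl ht

lemma mul_mem_forms {i j i' j' : ℕ} {f g : CoordRing} (hf : f ∈ forms i j) (hg : g ∈ forms i' j') :
    f * g ∈ forms (i + i') (j + j') := by
  have := IsWeightedHomogeneous.mul ((mem_weightedHomogeneousSubmodule _ _ _ _).mp hf)
    ((mem_weightedHomogeneousSubmodule _ _ _ _).mp hg)
  exact (mem_weightedHomogeneousSubmodule _ _ _ _).mpr this

/-- split a form as sum of monomials that are forms: an induction principle -/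
lemma forms_le {i j : ℕ} (U : Submodule ℂ CoordRing)
    (h : ∀ s : (Fin 4 ⊕ Fin 2) →₀ ℕ, ∑ k, s (Sum.inl k) = i → ∑ k, s (Sum.inr k) = j →
      ∀ c : ℂ, (monomial s c : CoordRing) ∈ U) : forms i j ≤ U := by
  intro f hf
  rw [f.as_sum]
  refine Submodule.sum_mem _ fun s hs => ?_
  have := mem_forms.mp hf s (mem_support_iff.mp hs)
  exact h s this.1 this.2 _

noncomputable abbrev y (k : Fin 2) : CoordRing := X (Sum.inr k)
noncomputable abbrev x (k : Fin 4) : CoordRing := X (Sum.inl k)

lemma monomial_split (s : (Fin 4 ⊕ Fin 2) →₀ ℕ) (v : Fin 4 ⊕ Fin 2) (m : ℕ) (hm : m ≤ s v) (c : ℂ) :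
    (monomial s c : CoordRing) = X v ^ m * monomial (s - Finsupp.single v m) c := by
  have hs : Finsupp.single v m + (s - Finsupp.single v m) = s := by
    refine add_tsub_cancel_of_le ?_
    rw [Finsupp.single_le_iff]
    exact hm
  rw [X_pow_eq_monomial, monomial_mul, one_mul, hs]


lemma sum_sub_single_inl (s : (Fin 4 ⊕ Fin 2) →₀ ℕ) (v : Fin 2) (m : ℕ) :
    ∑ k, (s - Finsupp.single (Sum.inr v) m : (Fin 4 ⊕ Fin 2) →₀ ℕ) (Sum.inl k) = ∑ k, s (Sum.inl k) := by
  refine Finset.sum_congr rfl fun k _ => ?_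
  simp

lemma sum_sub_single_inr (s : (Fin 4 ⊕ Fin 2) →₀ ℕ) (v : Fin 2) (m : ℕ) (hm : m ≤ s (Sum.inr v)) :
    ∑ k, (s - Finsupp.single (Sum.inr v) m : (Fin 4 ⊕ Fin 2) →₀ ℕ) (Sum.inr k) = ∑ k, s (Sum.inr k) - m := by
  rw [Fin.sum_univ_two, Fin.sum_univ_two]
  fin_cases v
  · simp at hm ⊢; omega
  · simp at hm ⊢; omega

/-- the key dimension inequality -/
lemma hilbert_le (P : Ideal CoordRing) [P.IsPrime] (d p q : ℕ) (A B : CoordRing)
    (hA : A ∈ forms d p) (hB : B ∈ forms d q) (hAP : A ∉ P) (hy : y 0 ∉ P)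
    (hf : y 1 ^ (q + 1) * A + y 0 ^ (p + 1) * B ∈ P) (i l : ℕ) (hl : p + q ≤ l) :
    hilbert P i (l + 1) ≤ hilbert P (i + d) l := by
  have := finite_forms i (l + 1)
  have := finite_forms (i + d) l
  let π : CoordRing →ₗ[ℂ] (CoordRing ⧸ P) := (Ideal.Quotient.mkₐ ℂ P).toLinearMap
  have hπ : ∀ z w, π (z * w) = π z * π w := fun z w => map_mul (Ideal.Quotient.mkₐ ℂ P) z w
  have hπ0 : ∀ z, π z = 0 ↔ z ∈ P := fun z => Ideal.Quotient.eq_zero_iff_mem
  let mA : (CoordRing ⧸ P) →ₗ[ℂ] (CoordRing ⧸ P) := LinearMap.mulLeft ℂ (π A)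
  let mY : (CoordRing ⧸ P) →ₗ[ℂ] (CoordRing ⧸ P) := LinearMap.mulLeft ℂ (π (y 0 ^ (p + 1)))
  have hmA : Function.Injective mA := by
    rw [injective_iff_map_eq_zero]
    intro z hz
    rcases mul_eq_zero.mp (show π A * z = 0 from hz) with h | h
    · exact absurd ((hπ0 _).mp h) hAP
    · exact h
  have hmY : Function.Injective mY := by
    rw [injective_iff_map_eq_zero]
    intro z hz
    rcases mul_eq_zero.mp (show π (y 0 ^ (p + 1)) * z = 0 from hz) with h | h
    · exact absurd (Ideal.IsPrime.mem_of_pow_mem ‹_› _ ((hπ0 _).mp h)) hy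
    · exact h
  have hle : ((forms i (l + 1)).map π).map mA ≤ ((forms (i + d) l).map π).map mY := by
    rw [← Submodule.map_comp]
    rw [Submodule.map_le_iff_le_comap]
    refine forms_le _ fun s hs1 hs2 c => ?_
    rw [Submodule.mem_comap]
    change π A * π (monomial s c) ∈ _
    rw [← hπ]
    by_cases h0 : p + 1 ≤ s (Sum.inr 0)
    · rw [monomial_split s (Sum.inr 0) (p + 1) h0 c]
      refine ⟨π (A * monomial (s - Finsupp.single (Sum.inr 0) (p + 1)) c), ⟨_, ?_, rfl⟩, ?_⟩
      · have h1 := monomial_mem_forms (i := i) (j := l - p) (s := s - Finsupp.single (Sum.inr 0) (p + 1)) c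
          (by rw [sum_sub_single_inl, hs1])
          (by rw [sum_sub_single_inr _ _ _ h0, hs2]; omega)
        have h2 := mul_mem_forms hA h1
        have e2 : p + (l - p) = l := by omega
        rw [e2, add_comm d i] at h2
        exact h2
      · change π (y 0 ^ (p + 1)) * π _ = _
        rw [← hπ]
        congr 1
        ring
    · have h1' : q + 1 ≤ s (Sum.inr 1) := by
        rw [Fin.sum_univ_two] at hs2
        omega
      rw [monomial_split s (Sum.inr 1) (q + 1) h1' c]
      refine ⟨π (-(B * monomial (s - Finsupp.single (Sum.inr 1) (q + 1)) c)), ⟨_, ?_, rfl⟩, ?_⟩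
      · have h1 := monomial_mem_forms (i := i) (j := l - q) (s := s - Finsupp.single (Sum.inr 1) (q + 1)) c
          (by rw [sum_sub_single_inl, hs1])
          (by rw [sum_sub_single_inr _ _ _ h1', hs2]; omega)
        have h2 := mul_mem_forms hB h1
        have e2 : q + (l - q) = l := by omega
        rw [e2, add_comm d i] at h2
        exact Submodule.neg_mem _ h2
      · change π (y 0 ^ (p + 1)) * π _ = _
        rw [← hπ, ← sub_eq_zero, ← map_sub, hπ0]
        have e3 : y 0 ^ (p + 1) * -(B * monomial (s - Finsupp.single (Sum.inr 1) (q + 1)) c) -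
            A * (X (Sum.inr 1) ^ (q + 1) * monomial (s - Finsupp.single (Sum.inr 1) (q + 1)) c) =
            (y 1 ^ (q + 1) * A + y 0 ^ (p + 1) * B) *
              (-(monomial (s - Finsupp.single (Sum.inr 1) (q + 1)) c)) := by
          simp only [y]
          ring
        rw [e3]
        exact Ideal.mul_mem_right _ _ hf
  calc hilbert P i (l + 1) = Module.finrank ℂ (((forms i (l + 1)).map π).map mA) :=
        (Submodule.equivMapOfInjective mA hmA _).finrank_eq
    _ ≤ Module.finrank ℂ (((forms (i + d) l).map π).map mY) := Submodule.finrank_mono hle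
    _ = hilbert P (i + d) l := (Submodule.equivMapOfInjective mY hmY _).finrank_eq.symm


lemma hilbert_le_of_y0_mem (P : Ideal CoordRing) (hy : y 0 ∈ P) (i l : ℕ) :
    hilbert P i (l + 1) ≤ hilbert P i l := by
  have := finite_forms i (l + 1)
  have := finite_forms i l
  let π : CoordRing →ₗ[ℂ] (CoordRing ⧸ P) := (Ideal.Quotient.mkₐ ℂ P).toLinearMap
  have hπ : ∀ z w, π (z * w) = π z * π w := fun z w => map_mul (Ideal.Quotient.mkₐ ℂ P) z w
  have hπ0 : ∀ z, π z = 0 ↔ z ∈ P := fun z => Ideal.Quotient.eq_zero_iff_mem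
  let mY : (CoordRing ⧸ P) →ₗ[ℂ] (CoordRing ⧸ P) := LinearMap.mulLeft ℂ (π (y 1))
  have hle : (forms i (l + 1)).map π ≤ ((forms i l).map π).map mY := by
    rw [Submodule.map_le_iff_le_comap]
    refine forms_le _ fun s hs1 hs2 c => ?_
    rw [Submodule.mem_comap]
    by_cases h0 : 1 ≤ s (Sum.inr 0)
    · have : π (monomial s c) = 0 := by
        rw [hπ0, monomial_split s (Sum.inr 0) 1 h0 c, pow_one]
        exact Ideal.mul_mem_right _ _ hy
      rw [this]
      exact Submodule.zero_mem _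
    · have h1 : 1 ≤ s (Sum.inr 1) := by
        rw [Fin.sum_univ_two] at hs2
        omega
      rw [monomial_split s (Sum.inr 1) 1 h1 c, pow_one]
      refine ⟨π (monomial (s - Finsupp.single (Sum.inr 1) 1) c), ⟨_, ?_, rfl⟩, ?_⟩
      · exact monomial_mem_forms _ (by rw [sum_sub_single_inl, hs1])
          (by rw [sum_sub_single_inr _ _ _ h1, hs2]; omega)
      · change π (y 1) * π _ = _
        rw [← hπ]
  exact (Submodule.finrank_mono hle).trans (Submodule.finrank_map_le _ _)

lemma hilbert_eq_zero (P : Ideal CoordRing) (hx : ∀ k, x k ∈ P) (i j : ℕ) (hi : 1 ≤ i) :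
    hilbert P i j = 0 := by
  have h : (forms i j).map (Ideal.Quotient.mkₐ ℂ P).toLinearMap = ⊥ := by
    rw [eq_bot_iff, Submodule.map_le_iff_le_comap]
    refine forms_le _ fun s hs1 hs2 c => ?_
    rw [Submodule.mem_comap, Submodule.mem_bot]
    have : ∃ k, 1 ≤ s (Sum.inl k) := by
      by_contra hcon
      push Not at hcon
      have : ∑ k, s (Sum.inl k) = 0 := Finset.sum_eq_zero fun k _ => by
        have := hcon k
        omega
      omega
    obtain ⟨k, hk⟩ := this
    rw [monomial_split s (Sum.inl k) 1 hk c, pow_one]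
    exact Ideal.Quotient.eq_zero_iff_mem.mpr (Ideal.mul_mem_right _ _ (hx k))
  rw [hilbert, h]
  exact finrank_bot _ _

/-- Any curve on `X` satisfies `F · C ≤ d (H · C)`, provided the coefficient forms do not
all vanish along it. -/
lemma curve_bound (P : Ideal CoordRing) (a b d : ℕ) (hP : IsCurve P a b) (q : ℕ → CoordRing)
    (hq : ∀ k, q k ∈ forms d 0)
    (hf : ∑ k ∈ Finset.range (d + 1), q k * (y 0 ^ k * y 1 ^ (d - k)) ∈ P)
    (hqP : ∃ k ≤ d, q k ∉ P) : b ≤ d * a := by
  classical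
  have hPp := hP.prime
  obtain ⟨c, N, hN⟩ := hP.hilbert_eq
  by_cases hy : y 0 ∈ P
  · have h1 := hN N le_rfl N le_rfl
    have h2 := hN N le_rfl (N + 1) (Nat.le_succ _)
    have h3 := hilbert_le_of_y0_mem P hy N N
    have h4 : (hilbert P N (N + 1) : ℤ) ≤ hilbert P N N := by exact_mod_cast h3
    rw [h1, h2] at h4
    push_cast at h4
    have : (b : ℤ) ≤ 0 := by nlinarith
    have hb : b = 0 := by omega
    simp [hb]
  · have hqP : ∃ k < d, q k ∉ P := by
      by_contra hcon
      push Not at hcon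
      rw [Finset.sum_range_succ] at hf
      have h3 : ∑ m ∈ Finset.range d, q m * (y 0 ^ m * y 1 ^ (d - m)) ∈ P :=
        Ideal.sum_mem _ fun m hm => Ideal.mul_mem_right _ _ (hcon m (Finset.mem_range.mp hm))
      have h1 := (Ideal.add_mem_iff_right P h3).mp hf
      rw [Nat.sub_self, pow_zero, mul_one] at h1
      obtain ⟨k, hk, hkP⟩ := hqP
      have hkd : k = d := by
        by_contra hne
        exact hkP (hcon k (lt_of_le_of_ne hk hne))
      subst hkd
      rcases hPp.mem_or_mem h1 with h | h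
      · exact hkP h
      · exact hy (hPp.mem_of_pow_mem _ h)
    let k := Nat.find (p := fun k => k < d ∧ q k ∉ P) (by obtain ⟨k, hk⟩ := hqP; exact ⟨k, hk⟩)
    have hk : k < d ∧ q k ∉ P := Nat.find_spec (p := fun k => k < d ∧ q k ∉ P) _
    have hmin : ∀ m < k, q m ∈ P := by
      intro m hm
      by_contra hcon
      exact Nat.find_min (p := fun k => k < d ∧ q k ∉ P) _ hm ⟨hm.trans hk.1, hcon⟩
    obtain ⟨hkd, hkP⟩ := hk
    clear_value k
    -- `A`, `B`
    let A : CoordRing := ∑ m ∈ Finset.range (k + 1), q m * (y 0 ^ m * y 1 ^ (k - m))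
    let B : CoordRing := ∑ m ∈ Finset.range (d - k), q (k + 1 + m) * (y 0 ^ m * y 1 ^ (d - (k + 1 + m)))
    have hA : A ∈ forms d k := by
      refine Submodule.sum_mem _ fun m hm => ?_
      have hm' : m ≤ k := Nat.lt_succ_iff.mp (Finset.mem_range.mp hm)
      have h0 : (y 0 ^ m * y 1 ^ (k - m) : CoordRing) ∈ forms 0 k := by
        rw [X_pow_eq_monomial, X_pow_eq_monomial, monomial_mul, one_mul]
        refine monomial_mem_forms _ ?_ ?_
        · simp
        · rw [Fin.sum_univ_two]
          simp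
          omega
      simpa using mul_mem_forms (hq m) h0
    have hB : B ∈ forms d (d - (k + 1)) := by
      refine Submodule.sum_mem _ fun m hm => ?_
      have hm' : m < d - k := Finset.mem_range.mp hm
      have h0 : (y 0 ^ m * y 1 ^ (d - (k + 1 + m)) : CoordRing) ∈ forms 0 (d - (k + 1)) := by
        rw [X_pow_eq_monomial, X_pow_eq_monomial, monomial_mul, one_mul]
        refine monomial_mem_forms _ ?_ ?_
        · simp
        · rw [Fin.sum_univ_two]
          simp
          omega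
      simpa using mul_mem_forms (hq (k + 1 + m)) h0
    have hAP : A ∉ P := by
      intro hcon
      have h1 : q k * (y 0 ^ k * y 1 ^ (k - k)) ∈ P := by
        have h2 : A = (∑ m ∈ Finset.range k, q m * (y 0 ^ m * y 1 ^ (k - m))) +
            q k * (y 0 ^ k * y 1 ^ (k - k)) := Finset.sum_range_succ _ _
        have h3 : ∑ m ∈ Finset.range k, q m * (y 0 ^ m * y 1 ^ (k - m)) ∈ P :=
          Ideal.sum_mem _ fun m hm => Ideal.mul_mem_right _ _ (hmin m (Finset.mem_range.mp hm))
        rw [h2] at hcon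
        exact (Ideal.add_mem_iff_right P h3).mp hcon
      rw [Nat.sub_self, pow_zero, mul_one] at h1
      rcases hPp.mem_or_mem h1 with h | h
      · exact hkP h
      · exact hy (hPp.mem_of_pow_mem _ h)
    have hsplit : y 1 ^ (d - (k + 1) + 1) * A + y 0 ^ (k + 1) * B ∈ P := by
      have e : ∑ m ∈ Finset.range (d + 1), q m * (y 0 ^ m * y 1 ^ (d - m)) =
          y 1 ^ (d - (k + 1) + 1) * A + y 0 ^ (k + 1) * B := by
        have e1 : d + 1 = (k + 1) + (d - k) := by omega
        rw [e1, Finset.sum_range_add, Finset.mul_sum, Finset.mul_sum]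
        congr 1
        · refine Finset.sum_congr rfl fun m hm => ?_
          have hm' : m ≤ k := Nat.lt_succ_iff.mp (Finset.mem_range.mp hm)
          have e2 : d - m = (d - (k + 1) + 1) + (k - m) := by omega
          rw [e2, pow_add (y 1)]
          ring
        · refine Finset.sum_congr rfl fun m hm => ?_
          rw [pow_add (y 0) (k + 1) m]
          ring
      rw [← e]
      exact hf
    have key := hilbert_le P d k (d - (k + 1)) A B hA hB hAP hy hsplit
    have hl : k + (d - (k + 1)) ≤ N + d := by omega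
    have h3 := key N (N + d) hl
    have h1 := hN N le_rfl (N + d + 1) (by omega)
    have h2 := hN (N + d) (by omega) (N + d) (by omega)
    have h4 : (hilbert P N (N + d + 1) : ℤ) ≤ hilbert P (N + d) (N + d) := by exact_mod_cast h3
    rw [h1, h2] at h4
    push_cast at h4
    have : (b : ℤ) ≤ d * a := by nlinarith
    exact_mod_cast this


/-! ### the open set -/

/-- exponent vector `x^μ y₀^k y₁^l` -/
noncomputable def eps (μ : Fin 4 →₀ ℕ) (k l : ℕ) : (Fin 4 ⊕ Fin 2) →₀ ℕ :=
  Finsupp.equivFunOnFinite.symm (Sum.elim μ ![k, l])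

@[simp] lemma eps_inl (μ : Fin 4 →₀ ℕ) (k l : ℕ) (i : Fin 4) : eps μ k l (Sum.inl i) = μ i := rfl
@[simp] lemma eps_inr0 (μ : Fin 4 →₀ ℕ) (k l : ℕ) : eps μ k l (Sum.inr 0) = k := rfl
@[simp] lemma eps_inr1 (μ : Fin 4 →₀ ℕ) (k l : ℕ) : eps μ k l (Sum.inr 1) = l := rfl

lemma eps_ext {s t : (Fin 4 ⊕ Fin 2) →₀ ℕ} (h1 : ∀ i, s (Sum.inl i) = t (Sum.inl i))
    (h2 : s (Sum.inr 0) = t (Sum.inr 0)) (h3 : s (Sum.inr 1) = t (Sum.inr 1)) : s = t := by
  ext v
  rcases v with i | j
  · exact h1 i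
  · fin_cases j
    · exact h2
    · exact h3

lemma eps_add (μ ρ : Fin 4 →₀ ℕ) (k l k' l' : ℕ) :
    eps μ k l + eps ρ k' l' = eps (μ + ρ) (k + k') (l + l') :=
  eps_ext (fun _ => rfl) rfl rfl

/-- exponents of degree `N` in four variables -/
noncomputable def Dl (N : ℕ) : Finset (Fin 4 →₀ ℕ) := (Finset.univ : Finset (Fin 4)).finsuppAntidiag N

lemma mem_Dl {N : ℕ} {μ : Fin 4 →₀ ℕ} : μ ∈ Dl N ↔ ∑ i, μ i = N := by
  simp [Dl, Finset.mem_finsuppAntidiag]

/-- the coefficient form `f_k`, where `f = ∑ f_k y₀^k y₁^(d-k)` -/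
noncomputable def cf (d : ℕ) (f : CoordRing) (k : ℕ) : CoordRing :=
  ∑ ρ ∈ Dl d, monomial (eps ρ 0 0) (coeff (eps ρ k (d - k)) f)

lemma cf_mem (d : ℕ) (f : CoordRing) (k : ℕ) : cf d f k ∈ forms d 0 := by
  refine Submodule.sum_mem _ fun ρ hρ => ?_
  refine monomial_mem_forms _ ?_ ?_
  · simpa using mem_Dl.mp hρ
  · simp

lemma sum_cf (d : ℕ) (f : CoordRing) (hf : f ∈ forms d d) :
    ∑ k ∈ Finset.range (d + 1), cf d f k * (y 0 ^ k * y 1 ^ (d - k)) = f := by
  classical
  have h1 : ∀ k ∈ Finset.range (d + 1), cf d f k * (y 0 ^ k * y 1 ^ (d - k)) =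
      ∑ ρ ∈ Dl d, monomial (eps ρ k (d - k)) (coeff (eps ρ k (d - k)) f) := by
    intro k _
    rw [cf, Finset.sum_mul]
    refine Finset.sum_congr rfl fun ρ _ => ?_
    rw [X_pow_eq_monomial, X_pow_eq_monomial, monomial_mul, monomial_mul, one_mul, mul_one]
    have e : eps ρ 0 0 + (Finsupp.single (Sum.inr 0) k + Finsupp.single (Sum.inr 1) (d - k)) =
        eps ρ k (d - k) := by
      apply eps_ext
      · intro i; simp
      · simp
      · simp
    rw [e]
  rw [Finset.sum_congr rfl h1, ← Finset.sum_product']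
  have hinj : Set.InjOn (fun z : ℕ × (Fin 4 →₀ ℕ) => eps z.2 z.1 (d - z.1))
      (Finset.range (d + 1) ×ˢ Dl d : Finset (ℕ × (Fin 4 →₀ ℕ))) := by
    rintro ⟨k, ρ⟩ _ ⟨k', ρ'⟩ _ h
    have e1 : k = k' := by
      have := congrArg (fun s => s (Sum.inr 0)) h
      simpa using this
    have e2 : ρ = ρ' := by
      ext i
      have := congrArg (fun s => s (Sum.inl i)) h
      simpa using this
    rw [e1, e2]
  rw [← Finset.sum_image (s := (Finset.range (d + 1) ×ˢ Dl d : Finset (ℕ × (Fin 4 →₀ ℕ))))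
    (g := fun z : ℕ × (Fin 4 →₀ ℕ) => eps z.2 z.1 (d - z.1))
    (f := fun s => (monomial s (coeff s f) : CoordRing)) hinj]
  conv_rhs => rw [f.as_sum]
  symm
  refine Finset.sum_subset ?_ ?_
  · intro s hs
    have h2 := mem_forms.mp hf s (mem_support_iff.mp hs)
    rw [Fin.sum_univ_two] at h2
    rw [Finset.mem_image]
    refine ⟨(s (Sum.inr 0), Finsupp.equivFunOnFinite.symm fun i => s (Sum.inl i)), ?_, ?_⟩
    · rw [Finset.mem_product]
      refine ⟨Finset.mem_range.mpr (by simp only; omega), mem_Dl.mpr (by simpa using h2.1)⟩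
    · apply eps_ext
      · intro i; simp
      · simp
      · simp only [eps_inr1]; omega
  · intro s _ hs
    rw [notMem_support_iff.mp hs, monomial_zero]

lemma weight_eps (d : ℕ) (ρ : Fin 4 →₀ ℕ) (hρ : ρ ∈ Dl d) (k : ℕ) (hk : k ≤ d) :
    Finsupp.weight bideg (eps ρ k (d - k)) = (d, d) := by
  rw [weight_eq, Fin.sum_univ_two]
  simp only [eps_inl, eps_inr0, eps_inr1]
  rw [mem_Dl.mp hρ, Nat.add_sub_cancel' hk]

section det

variable (d : ℕ) (I : (Fin 4 →₀ ℕ) → Fin 4)

/-- variables of the coefficient space -/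
noncomputable def var (s : (Fin 4 ⊕ Fin 2) →₀ ℕ) : MvPolynomial (Expo d) ℂ := by
  classical
  exact if h : Finsupp.weight bideg s = (d, d) then X ⟨s, h⟩ else 0

noncomputable def M (N : ℕ) : Matrix (Dl N) (Dl N) (MvPolynomial (Expo d) ℂ) := by
  classical
  exact fun ν μ => ∑ ρ ∈ Dl d, if (μ : Fin 4 →₀ ℕ) - Finsupp.single (I μ) d + ρ = ν then
    var d (eps ρ (I μ) (d - I μ)) else 0

lemma eval_M (hd : 3 ≤ d) (N : ℕ) (c : (Fin 4 ⊕ Fin 2 →₀ ℕ) → ℂ) (ν μ : Dl N) [DecidableEq (Fin 4 →₀ ℕ)] :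
    eval (fun s : Expo d => c s) (M d I N ν μ) =
      ∑ ρ ∈ Dl d, if (μ : Fin 4 →₀ ℕ) - Finsupp.single (I μ) d + ρ = ν then
        c (eps ρ (I μ) (d - I μ)) else 0 := by
  rw [M, map_sum]
  refine Finset.sum_congr rfl fun ρ hρ => ?_
  have hk : ((I μ : Fin 4) : ℕ) ≤ d := by
    have := (I μ).isLt
    omega
  have hw := weight_eps d ρ hρ (I μ) hk
  by_cases h : (μ : Fin 4 →₀ ℕ) - Finsupp.single (I μ) d + ρ = ν
  · rw [if_pos h, if_pos h, var, dif_pos hw, eval_X]
  · rw [if_neg h, if_neg h, map_zero]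

end det

lemma exists_G (d : ℕ) (hd : 3 ≤ d) : ∃ G : MvPolynomial (Expo d) ℂ, G ≠ 0 ∧
    ∀ f : CoordRing, eval (fun s : Expo d => coeff (s : (Fin 4 ⊕ Fin 2) →₀ ℕ) f) G ≠ 0 →
      ∀ P : Ideal CoordRing, P.IsPrime → (∀ k < 4, cf d f k ∈ P) → ∀ i, x i ∈ P := by
  classical
  let N : ℕ := 4 * (d - 1) + 1
  have hI : ∀ μ : Fin 4 →₀ ℕ, ∃ i : Fin 4, μ ∈ Dl N → d ≤ μ i := by
    intro μ
    by_cases hμ : μ ∈ Dl N
    · by_contra hcon
      push Not at hcon
      have h1 : ∑ i, μ i ≤ ∑ i : Fin 4, (d - 1) := Finset.sum_le_sum fun i _ => by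
        have := (hcon i).2
        omega
      rw [mem_Dl.mp hμ] at h1
      simp [N] at h1
    · exact ⟨0, fun h => absurd h hμ⟩
  choose I hI using hI
  have hsub : ∀ μ : Dl N, (μ : Fin 4 →₀ ℕ) - Finsupp.single (I μ) d + Finsupp.single (I μ) d = μ := by
    intro μ
    refine tsub_add_cancel_of_le ?_
    rw [Finsupp.single_le_iff]
    exact hI μ μ.2
  have hmem : ∀ (μ : Dl N), ∀ ρ ∈ Dl d, (μ : Fin 4 →₀ ℕ) - Finsupp.single (I μ) d + ρ ∈ Dl N := by
    intro μ ρ hρ
    rw [mem_Dl] at hρ ⊢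
    have h1 := mem_Dl.mp μ.2
    have h2 : ∑ i, ((μ : Fin 4 →₀ ℕ) - Finsupp.single (I μ) d + Finsupp.single (I μ) d : Fin 4 →₀ ℕ) i = N := by
      rw [hsub μ, h1]
    simp only [Finsupp.add_apply, Finset.sum_add_distrib] at h2 ⊢
    rw [hρ]
    have h3 : ∑ i, (Finsupp.single (I μ) d : Fin 4 →₀ ℕ) i = d := by
      simp [Finsupp.single_apply]
    rw [h3] at h2
    exact h2
  refine ⟨(M d I N).det, ?_, ?_⟩
  · -- nonvanishing at the Fermat type form
    intro h0
    let c0 : ((Fin 4 ⊕ Fin 2) →₀ ℕ) → ℂ := fun s =>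
      if ∃ k : Fin 4, s = eps (Finsupp.single k d) k (d - k) then 1 else 0
    have h1 : eval (fun s : Expo d => c0 s) (M d I N).det = 1 := by
      rw [RingHom.map_det]
      have : (eval (fun s : Expo d => c0 s)).mapMatrix (M d I N) = 1 := by
        ext ν μ
        rw [RingHom.mapMatrix_apply, Matrix.map_apply, eval_M d I hd]
        have h2 : ∀ ρ ∈ Dl d, (if (μ : Fin 4 →₀ ℕ) - Finsupp.single (I μ) d + ρ = ν then
            c0 (eps ρ (I μ) (d - I μ)) else 0) =
            if ρ = Finsupp.single (I μ) d then (if (μ : Fin 4 →₀ ℕ) = ν then 1 else 0) else 0 := by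
          intro ρ _
          by_cases hρ : ρ = Finsupp.single (I μ) d
          · rw [if_pos hρ, hρ, hsub μ]
            by_cases hμν : (μ : Fin 4 →₀ ℕ) = ν
            · rw [if_pos hμν, if_pos hμν]
              simp only [c0]
              rw [if_pos ⟨I μ, rfl⟩]
            · rw [if_neg hμν, if_neg hμν]
          · rw [if_neg hρ]
            have : c0 (eps ρ (I μ) (d - I μ)) = 0 := by
              simp only [c0]
              rw [if_neg]
              rintro ⟨k, hk⟩
              apply hρ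
              have e1 : (I μ : ℕ) = k := by
                have := congrArg (fun s => s (Sum.inr 0)) hk
                simpa using this
              have e1' : I μ = k := Fin.ext e1
              ext i
              have := congrArg (fun s => s (Sum.inl i)) hk
              simpa [e1'] using this
            rw [this]
            simp
        rw [Finset.sum_congr rfl h2, Finset.sum_ite_eq']
        have h3 : (Finsupp.single (I μ) d : Fin 4 →₀ ℕ) ∈ Dl d := by
          rw [mem_Dl]
          simp [Finsupp.single_apply]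
        rw [if_pos h3, Matrix.one_apply]
        by_cases hμν : ν = μ
        · rw [if_pos hμν, hμν, if_pos rfl]
        · rw [if_neg hμν, if_neg (fun h => hμν (Subtype.ext h.symm))]
      rw [this, Matrix.det_one]
    rw [h0, map_zero] at h1
    exact zero_ne_one h1
  · intro f hG P hP hcf i
    rw [RingHom.map_det] at hG
    let E : Matrix (Dl N) (Dl N) ℂ := (eval (fun s : Expo d => coeff (s : (Fin 4 ⊕ Fin 2) →₀ ℕ) f)).mapMatrix (M d I N)
    have hE : ∀ ν μ, E ν μ = ∑ ρ ∈ Dl d, if (μ : Fin 4 →₀ ℕ) - Finsupp.single (I μ) d + ρ = ν then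
        coeff (eps ρ (I μ) (d - I μ)) f else 0 := by
      intro ν μ
      exact eval_M d I hd N (fun s => coeff s f) ν μ
    have hdet : IsUnit E.det := isUnit_iff_ne_zero.mpr hG
    have hν0 : (Finsupp.single i N : Fin 4 →₀ ℕ) ∈ Dl N := by
      rw [mem_Dl]
      simp [Finsupp.single_apply]
    let ν0 : Dl N := ⟨Finsupp.single i N, hν0⟩
    let u : Dl N → ℂ := E⁻¹.mulVec (Pi.single ν0 1)
    have hu : E.mulVec u = Pi.single ν0 1 := by
      rw [Matrix.mulVec_mulVec, Matrix.mul_nonsing_inv _ hdet, Matrix.one_mulVec]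
    have hid : ∑ μ : Dl N, monomial (eps ((μ : Fin 4 →₀ ℕ) - Finsupp.single (I μ) d) 0 0) (u μ) *
        cf d f (I μ) = monomial (eps (ν0 : Fin 4 →₀ ℕ) 0 0) 1 := by
      have h1 : ∀ μ : Dl N, monomial (eps ((μ : Fin 4 →₀ ℕ) - Finsupp.single (I μ) d) 0 0) (u μ) *
          cf d f (I μ) = ∑ ν : Dl N, monomial (eps (ν : Fin 4 →₀ ℕ) 0 0) (E ν μ * u μ) := by
        intro μ
        rw [cf, Finset.mul_sum]
        have h2 : ∀ ν : Dl N, (monomial (eps (ν : Fin 4 →₀ ℕ) 0 0) (E ν μ * u μ) : CoordRing) =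
            ∑ ρ ∈ Dl d, if (μ : Fin 4 →₀ ℕ) - Finsupp.single (I μ) d + ρ = ν then
              monomial (eps (ν : Fin 4 →₀ ℕ) 0 0) (coeff (eps ρ (I μ) (d - I μ)) f * u μ) else 0 := by
          intro ν
          rw [hE, Finset.sum_mul, map_sum]
          refine Finset.sum_congr rfl fun ρ _ => ?_
          split_ifs with h
          · rfl
          · simp
        rw [Finset.sum_congr rfl (fun ν _ => h2 ν), Finset.sum_comm]
        refine Finset.sum_congr rfl fun ρ hρ => ?_
        rw [Finset.sum_eq_single (⟨_, hmem μ ρ hρ⟩ : Dl N)]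
        · rw [if_pos rfl, monomial_mul, eps_add, mul_comm (u μ)]
        · intro ν _ hν
          rw [if_neg]
          intro h
          exact hν (Subtype.ext h.symm)
        · intro h
          exact absurd (Finset.mem_univ _) h
      rw [Finset.sum_congr rfl (fun μ _ => h1 μ), Finset.sum_comm]
      have h3 : ∀ ν : Dl N, ∑ μ : Dl N, (monomial (eps (ν : Fin 4 →₀ ℕ) 0 0) (E ν μ * u μ) : CoordRing) =
          monomial (eps (ν : Fin 4 →₀ ℕ) 0 0) ((Pi.single ν0 1 : Dl N → ℂ) ν) := by
        intro ν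
        rw [← map_sum, ← hu]
        rfl
      rw [Finset.sum_congr rfl (fun ν _ => h3 ν), Finset.sum_eq_single ν0]
      · rw [Pi.single_eq_same]
      · intro ν _ hν
        rw [Pi.single_eq_of_ne hν, monomial_zero]
      · intro h
        exact absurd (Finset.mem_univ _) h
    have hPm : (monomial (eps (ν0 : Fin 4 →₀ ℕ) 0 0) 1 : CoordRing) ∈ P := by
      rw [← hid]
      refine Ideal.sum_mem _ fun μ _ => Ideal.mul_mem_left _ _ (hcf _ (I μ).isLt)
    have hx : (monomial (eps (ν0 : Fin 4 →₀ ℕ) 0 0) 1 : CoordRing) = x i ^ N := by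
      rw [X_pow_eq_monomial]
      have e : eps (ν0 : Fin 4 →₀ ℕ) 0 0 = Finsupp.single (Sum.inl i) N := by
        apply eps_ext
        · intro j
          simp [ν0, Finsupp.single_apply]
        · simp
        · simp
      rw [e]
    rw [hx] at hPm
    exact hP.mem_of_pow_mem _ hPm

/-- every curve on `X` satisfies the inequality -/
lemma exists_G' (d : ℕ) (hd : 3 ≤ d) : ∃ G : MvPolynomial (Expo d) ℂ, G ≠ 0 ∧
    ∀ f ∈ forms d d, eval (fun s : Expo d => coeff (s : (Fin 4 ⊕ Fin 2) →₀ ℕ) f) G ≠ 0 →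
      ∀ (P : Ideal CoordRing) (a b : ℕ), IsCurve P a b → f ∈ P → b ≤ d * a := by
  obtain ⟨G, hG0, hG⟩ := exists_G d hd
  refine ⟨G, hG0, fun f hf hfG P a b hP hfP => ?_⟩
  refine curve_bound P a b d hP (cf d f) (cf_mem d f) (by rw [sum_cf d f hf]; exact hfP) ?_
  by_contra hcon
  push Not at hcon
  have hx := hG f hfG P hP.prime (fun k hk => hcon k (by omega))
  obtain ⟨c, N, hN⟩ := hP.hilbert_eq
  have h1 := hN (N + 1) (by omega) (N + 1) (by omega)
  have h2 := hN (N + 2) (by omega) (N + 1) (by omega)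
  have h3 := hN (N + 1) (by omega) (N + 2) (by omega)
  rw [hilbert_eq_zero P hx _ _ (by omega)] at h1 h2 h3
  push_cast at h1 h2 h3
  have ha : (a : ℤ) = 0 := by linarith
  have hb : (b : ℤ) = 0 := by linarith
  apply hP.nonconstant
  rw [Prod.mk.injEq]
  exact ⟨by exact_mod_cast ha, by exact_mod_cast hb⟩

/-! ### the fibre `{pt} × ℙ¹` -/

/-- the ideal `(x₁,x₂,x₃)` of `{(1:0:0:0)} × ℙ¹` -/
noncomputable def P0 : Ideal CoordRing := Ideal.span (X '' {v | v = Sum.inl 1 ∨ v = Sum.inl 2 ∨ v = Sum.inl 3})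

lemma mem_P0 (f : CoordRing) : f ∈ P0 ↔
    ∀ s, s (Sum.inl 1) = 0 → s (Sum.inl 2) = 0 → s (Sum.inl 3) = 0 → coeff s f = 0 := by
  rw [P0, mem_ideal_span_X_image]
  constructor
  · intro h s h1 h2 h3
    by_contra hs
    obtain ⟨v, hv, hv0⟩ := h s (mem_support_iff.mpr hs)
    rcases hv with rfl | rfl | rfl
    · exact hv0 h1
    · exact hv0 h2
    · exact hv0 h3
  · intro h s hs
    by_contra hcon
    push Not at hcon
    exact mem_support_iff.mp hs (h s (hcon _ (Or.inl rfl)) (hcon _ (Or.inr (Or.inl rfl)))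
      (hcon _ (Or.inr (Or.inr rfl))))

/-- the substitution `x₁ = x₂ = x₃ = 0` -/
noncomputable def subst0 : CoordRing →ₐ[ℂ] CoordRing :=
  aeval (fun v => if v = Sum.inl 1 ∨ v = Sum.inl 2 ∨ v = Sum.inl 3 then 0 else X v)

lemma P0_prime : P0.IsPrime := by
  classical
  have h : P0 = RingHom.ker (subst0 : CoordRing →+* CoordRing) := by
    apply le_antisymm
    · rw [P0, Ideal.span_le]
      rintro _ ⟨v, hv, rfl⟩
      simp only [SetLike.mem_coe, RingHom.mem_ker]
      change subst0 (X v) = 0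
      have hv' : v = Sum.inl 1 ∨ v = Sum.inl 2 ∨ v = Sum.inl 3 := hv
      rw [subst0, aeval_X, if_pos hv']
    · intro f hf
      have h1 : ∀ g : CoordRing, g - subst0 g ∈ P0 := by
        intro g
        induction g using MvPolynomial.induction_on with
        | C a => simp [subst0, algebraMap_eq]
        | add p q hp hq =>
          rw [map_add]
          have : p + q - (subst0 p + subst0 q) = (p - subst0 p) + (q - subst0 q) := by ring
          rw [this]
          exact Ideal.add_mem _ hp hq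
        | mul_X p v hp =>
          rw [map_mul]
          have e : p * X v - subst0 p * subst0 (X v) = (p - subst0 p) * X v + subst0 p * (X v - subst0 (X v)) := by
            ring
          rw [e]
          refine Ideal.add_mem _ (Ideal.mul_mem_right _ _ hp) (Ideal.mul_mem_left _ _ ?_)
          rw [subst0, aeval_X]
          split_ifs with hv
          · rw [sub_zero]
            exact Ideal.subset_span ⟨v, hv, rfl⟩
          · rw [sub_self]
            exact Ideal.zero_mem _
      have h2 := h1 f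
      have h3 : subst0 f = 0 := hf
      rw [h3, sub_zero] at h2
      exact h2
  rw [h]
  exact RingHom.ker_isPrime _

lemma hilbert_P0 (i j : ℕ) : hilbert P0 i j = j + 1 := by
  classical
  let π : CoordRing →ₗ[ℂ] (CoordRing ⧸ P0) := (Ideal.Quotient.mkₐ ℂ P0).toLinearMap
  have hπ0 : ∀ z, π z = 0 ↔ z ∈ P0 := fun z => Ideal.Quotient.eq_zero_iff_mem
  let E : Fin (j + 1) → ((Fin 4 ⊕ Fin 2) →₀ ℕ) := fun l => eps (Finsupp.single 0 i) l (j - l)
  have hE : ∀ l l', E l = E l' ↔ l = l' := by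
    intro l l'
    constructor
    · intro h
      have := congrArg (fun s => s (Sum.inr 0)) h
      exact Fin.ext (by simpa [E] using this)
    · rintro rfl; rfl
  let Ψ : (Fin (j + 1) → ℂ) →ₗ[ℂ] CoordRing := ∑ l, (monomial (E l)).comp (LinearMap.proj l)
  have hΨ : ∀ c, Ψ c = ∑ l, monomial (E l) (c l) := by
    intro c
    simp [Ψ]
  have hinj : Function.Injective (π.comp Ψ) := by
    rw [injective_iff_map_eq_zero]
    intro c hc
    have h1 : Ψ c ∈ P0 := (hπ0 _).mp hc
    rw [mem_P0] at h1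
    ext l
    have h2 := h1 (E l) (by simp [E]) (by simp [E]) (by simp [E])
    rw [hΨ, coeff_sum] at h2
    simp only [coeff_monomial, hE] at h2
    simpa using h2
  have hrange : LinearMap.range (π.comp Ψ) = (forms i j).map π := by
    apply le_antisymm
    · rintro _ ⟨c, rfl⟩
      refine ⟨Ψ c, ?_, rfl⟩
      rw [hΨ]
      refine Submodule.sum_mem _ fun l _ => monomial_mem_forms _ ?_ ?_
      · simp [E]
      · rw [Fin.sum_univ_two]
        simp [E]
        omega
    · rw [Submodule.map_le_iff_le_comap]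
      refine forms_le _ fun s hs1 hs2 c => ?_
      rw [Submodule.mem_comap]
      by_cases h0 : s (Sum.inl 1) = 0 ∧ s (Sum.inl 2) = 0 ∧ s (Sum.inl 3) = 0
      · rw [Fin.sum_univ_four] at hs1
        rw [Fin.sum_univ_two] at hs2
        have hl : s (Sum.inr 0) < j + 1 := by omega
        have es : s = E ⟨s (Sum.inr 0), hl⟩ := by
          apply eps_ext
          · intro k
            fin_cases k
            · simp [E]; omega
            · simpa [E] using h0.1
            · simpa [E] using h0.2.1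
            · simpa [E] using h0.2.2
          · simp [E]
          · simp [E]; omega
        refine ⟨Pi.single ⟨s (Sum.inr 0), hl⟩ c, ?_⟩
        rw [LinearMap.comp_apply, hΨ]
        congr 1
        rw [Finset.sum_eq_single (⟨s (Sum.inr 0), hl⟩ : Fin (j + 1))]
        · rw [Pi.single_eq_same, ← es]
        · intro l _ hl'
          rw [Pi.single_eq_of_ne hl', monomial_zero]
        · intro h
          exact absurd (Finset.mem_univ _) h
      · have : π (monomial s c) = 0 := by
          rw [hπ0, mem_P0]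
          intro t h1 h2 h3
          rw [coeff_monomial, if_neg]
          rintro rfl
          exact h0 ⟨h1, h2, h3⟩
        rw [this]
        exact Submodule.zero_mem _
  rw [hilbert]
  change Module.finrank ℂ ((forms i j).map π) = j + 1
  rw [← hrange, LinearMap.finrank_range_of_inj hinj, Module.finrank_fin_fun]

lemma isCurve_P0 : IsCurve P0 0 1 where
  prime := P0_prime
  bihomogeneous := by
    classical
    intro f hf m
    rw [mem_P0] at hf ⊢
    intro s h1 h2 h3
    rw [coeff_weightedHomogeneousComponent]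
    split_ifs
    · exact hf s h1 h2 h3
    · rfl
  nonconstant := by simp
  hilbert_eq := ⟨1, 0, fun i _ j _ => by rw [hilbert_P0]; push_cast; ring⟩

/-- `Y = ℙ³ × ℙ¹`, `A = O(1,1)`: for every `d ≥ 3` and every `X ∈ |dA|` outside a proper closed
subset, the closed cone spanned in `N₁(Y)` by the curves on `X` is strictly smaller than
`Eff₁(Y)`. -/
theorem result : ∀ d : ℕ, 3 ≤ d → ∃ G : MvPolynomial (Expo d) ℂ, G ≠ 0 ∧
    ∀ f ∈ forms d d, eval (fun s : Expo d => coeff (s : (Fin 4 ⊕ Fin 2) →₀ ℕ) f) G ≠ 0 →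
      effCone f ⊂ effCone 0 := by
  intro d hd
  obtain ⟨G, hG0, hG⟩ := exists_G' d hd
  refine ⟨G, hG0, fun f hf hfG => ?_⟩
  have hsub : effCone f ⊆ effCone 0 := by
    refine closure_mono (Submodule.span_mono ?_)
    rintro v ⟨P, a, b, hP, _, rfl⟩
    exact ⟨P, a, b, hP, Ideal.zero_mem _, rfl⟩
  have hmem : ((0 : ℝ), (1 : ℝ)) ∈ effCone 0 := by
    refine subset_closure (Submodule.subset_span ?_)
    exact ⟨P0, 0, 1, isCurve_P0, Ideal.zero_mem _, by simp⟩
  have hbd : effCone f ⊆ {v : ℝ × ℝ | v.2 ≤ d * v.1} := by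
    refine closure_minimal ?_ (isClosed_le continuous_snd (continuous_const.mul continuous_fst))
    intro v hv
    induction hv using Submodule.span_induction with
    | mem v hv =>
      obtain ⟨P, a, b, hP, hfP, rfl⟩ := hv
      have := hG f hf hfG P a b hP hfP
      simp only [Set.mem_ofPred_eq]
      exact_mod_cast this
    | zero => simp
    | add u v _ _ hu hv =>
      simp only [Set.mem_ofPred_eq, Prod.fst_add, Prod.snd_add] at *
      linarith
    | smul c v _ hv =>
      simp only [Set.mem_ofPred_eq] at *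
      have hc : (0 : ℝ) ≤ c := c.2
      have e1 : (c • v).1 = (c : ℝ) * v.1 := rfl
      have e2 : (c • v).2 = (c : ℝ) * v.2 := rfl
      rw [e1, e2]
      nlinarith [mul_le_mul_of_nonneg_left hv hc]
  refine ⟨hsub, fun hcon => ?_⟩
  have h1 := hbd (hcon hmem)
  simp only [Set.mem_ofPred_eq] at h1
  norm_num at h1

end Pool.Agent.Results.MP_f4858a_ag.Disproof
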